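import Mathlib

set_option autoImplicit false

open scoped Pointwise

/-!
# Equidistribution of values of non-singular words with constants in `S_n`
-/

namespace Pool.Agent.Results.MP_492aa6_al.Equidist

/-- The symmetric group `S_n`. -/
abbrev P (n : ℕ) : Type := Equiv.Perm (Fin n)

/-- `h` or its inverse, according to the sign. -/
def sp {n : ℕ} (h : P n) (e : Bool) : P n := if e then h else h⁻¹

lemma sp_sp {n : ℕ} (h : P n) (e : Bool) : sp (sp h e) e = h := by
  cases e <;> simp [sp]

section near

variable {n : ℕ} (C : Finset (P n))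

/-- `y` is obtained from `x` by applying `k` elements of `C` -/
def near (k : ℕ) (x y : Fin n) : Prop := ∃ s ∈ C ^ k, y = s x

variable {C}

lemma near_zero (x : Fin n) : near C 0 x x := ⟨1, by rw [pow_zero]; exact Finset.one_mem_one, rfl⟩

lemma near_mono (h1 : (1 : P n) ∈ C) {k k' : ℕ} (hk : k ≤ k') {x y : Fin n} (h : near C k x y) :
    near C k' x y := by
  obtain ⟨s, hs, hy⟩ := h
  exact ⟨s, Finset.pow_subset_pow_right h1 hk hs, hy⟩

lemma near_step {k : ℕ} {x y : Fin n} {s : P n} (hs : s ∈ C) (h : near C k x y) :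
    near C (k + 1) x (s y) := by
  obtain ⟨s', hs', rfl⟩ := h
  exact ⟨s * s', by rw [pow_succ']; exact Finset.mul_mem_mul hs hs', rfl⟩

lemma near_symm (hinv : C⁻¹ = C) {k : ℕ} {x y : Fin n} (h : near C k x y) : near C k y x := by
  obtain ⟨s, hs, rfl⟩ := h
  refine ⟨s⁻¹, ?_, by simp⟩
  rw [← hinv, inv_pow]
  exact Finset.inv_mem_inv hs

lemma near_trans {k k' : ℕ} {x y z : Fin n} (h : near C k x y) (h' : near C k' y z) :
    near C (k + k') x z := by
  obtain ⟨s, hs, rfl⟩ := h
  obtain ⟨s', hs', rfl⟩ := h'
  exact ⟨s' * s, by rw [add_comm, pow_add]; exact Finset.mul_mem_mul hs' hs, rfl⟩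

end near

section traj

variable {n r : ℕ} (lt : ℕ → Fin r × Bool) (c : ℕ → P n) (v : Fin n)

/-- The trajectory of `v`. -/
def traj (g : Fin r → P n) : ℕ → Fin n
  | 0 => v
  | t + 1 => sp (g (lt t).1) (lt t).2 (c t (traj g t))

/-- the point to which the `t`-th letter is applied -/
def src (g : Fin r → P n) (t : ℕ) : Fin n := c t (traj lt c v g t)

/-- the labelled directed edge used at step `t` -/
def edge (g : Fin r → P n) (t : ℕ) : Fin r × (Fin n × Fin n) :=
  ((lt t).1, if (lt t).2 then (src lt c v g t, traj lt c v g (t + 1))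
    else (traj lt c v g (t + 1), src lt c v g t))

lemma traj_succ (g : Fin r → P n) (t : ℕ) :
    traj lt c v g (t + 1) = sp (g (lt t).1) (lt t).2 (src lt c v g t) := rfl

/-- the edge at step `t` was not used before -/
def fresh (g : Fin r → P n) (t : ℕ) : Prop :=
  ∀ t' < t, edge lt c v g t' ≠ edge lt c v g t

/-- the label, i.e. the product of the letters in the free group -/
def lab : ℕ → FreeGroup (Fin r)
  | 0 => 1
  | t + 1 => FreeGroup.mk [lt t] * lab t

variable {lt c v} {C : Finset (P n)} (h1 : (1 : P n) ∈ C) (hinv : C⁻¹ = C) {l : ℕ}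
  (hc : ∀ t < l, c t ∈ C) {g : Fin r → P n}
  (hgood : ∀ t < l, fresh lt c v g t → ∀ k ≤ t,
    ¬ near C (2 * l + 2) (traj lt c v g k) (traj lt c v g (t + 1)))

include h1 hinv hgood in
lemma root_unique_aux {k k' ρ ρ' : ℕ} {x : Fin n} (hk' : k' ≤ l)
    (hr' : k' = 0 ∨ fresh lt c v g (k' - 1))
    (hx : near C ρ (traj lt c v g k) x) (hx' : near C ρ' (traj lt c v g k') x)
    (hρ : ρ + ρ' ≤ 2 * l + 2) : ¬ k < k' := by
  intro hlt
  rcases hr' with h0 | hf
  · omega
  · have h2 := near_mono h1 hρ (near_trans hx (near_symm hinv hx'))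
    have h3 := hgood (k' - 1) (by omega) hf k (by omega)
    rw [show k' - 1 + 1 = k' by omega] at h3
    exact h3 h2

include h1 hinv hgood in
lemma root_unique {k k' ρ ρ' : ℕ} {x : Fin n} (hk : k ≤ l) (hk' : k' ≤ l)
    (hr : k = 0 ∨ fresh lt c v g (k - 1)) (hr' : k' = 0 ∨ fresh lt c v g (k' - 1))
    (hx : near C ρ (traj lt c v g k) x) (hx' : near C ρ' (traj lt c v g k') x)
    (hρ : ρ + ρ' ≤ 2 * l + 2) : k = k' := by
  rcases lt_trichotomy k k' with h | h | h
  · exact absurd h (root_unique_aux h1 hinv hgood hk' hr' hx hx' hρ)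
  · exact h
  · exact absurd h (root_unique_aux h1 hinv hgood hk hr hx' hx (by omega))

include h1 hinv hc hgood in
lemma root_exists (t : ℕ) : t ≤ l → ∃ k ≤ t, (k = 0 ∨ fresh lt c v g (k - 1)) ∧
    lab lt k = lab lt t ∧ near C t (traj lt c v g k) (traj lt c v g t) := by
  induction t using Nat.strong_induction_on with
  | _ t ih =>
    intro ht
    rcases t with _ | t
    · exact ⟨0, le_rfl, Or.inl rfl, rfl, near_zero _⟩
    by_cases hf : fresh lt c v g t
    · exact ⟨t + 1, le_rfl, Or.inr hf, rfl, near_mono h1 (Nat.zero_le _) (near_zero _)⟩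
    · unfold fresh at hf
      push Not at hf
      obtain ⟨t', ht', he⟩ := hf
      obtain ⟨k1, hk1, hr1, hl1, hn1⟩ := ih t (by omega) (by omega)
      obtain ⟨k2, hk2, hr2, hl2, hn2⟩ := ih t' (by omega) (by omega)
      obtain ⟨k3, hk3, hr3, hl3, hn3⟩ := ih (t' + 1) (by omega) (by omega)
      have hn1' : near C (t + 1) (traj lt c v g k1) (src lt c v g t) :=
        near_step (hc t (by omega)) hn1
      have hn2' : near C (t' + 1) (traj lt c v g k2) (src lt c v g t') :=
        near_step (hc t' (by omega)) hn2
      have he1 : (lt t').1 = (lt t).1 := by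
        have := congrArg Prod.fst he
        exact this
      have he2 := congrArg Prod.snd he
      simp only [edge] at he2
      by_cases hs : (lt t').2 = (lt t).2
      · have hlt : lt t' = lt t := Prod.ext he1 hs
        have hst : src lt c v g t' = src lt c v g t ∧
            traj lt c v g (t' + 1) = traj lt c v g (t + 1) := by
          rw [hs] at he2
          cases hb : (lt t).2
          · rw [hb] at he2
            simp only [Bool.false_eq_true, if_false, Prod.mk.injEq] at he2
            exact ⟨he2.2, he2.1⟩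
          · rw [hb] at he2
            simp only [if_true, Prod.mk.injEq] at he2
            exact ⟨he2.1, he2.2⟩
        have hkk : k1 = k2 := by
          refine root_unique h1 hinv hgood (by omega) (by omega) hr1 hr2 hn1' (ρ' := t' + 1) ?_
            (by omega)
          rw [← hst.1]; exact hn2'
        refine ⟨k3, by omega, hr3, ?_, ?_⟩
        · rw [hl3, lab, lab, hlt, ← hl1, ← hl2, hkk]
        · rw [← hst.2]; exact near_mono h1 (by omega) hn3
      · have hst : src lt c v g t' = traj lt c v g (t + 1) ∧
            traj lt c v g (t' + 1) = src lt c v g t := by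
          cases hb : (lt t).2
          · have hb' : (lt t').2 = true := by
              rw [hb] at hs; simpa using hs
            rw [hb, hb'] at he2
            simp only [Bool.false_eq_true, if_false, if_true, Prod.mk.injEq] at he2
            exact ⟨he2.1, he2.2⟩
          · have hb' : (lt t').2 = false := by
              rw [hb] at hs; simpa using hs
            rw [hb, hb'] at he2
            simp only [Bool.false_eq_true, if_false, if_true, Prod.mk.injEq] at he2
            exact ⟨he2.2, he2.1⟩
        have hkk : k1 = k3 := by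
          refine root_unique h1 hinv hgood (by omega) (by omega) hr1 hr3 hn1' (ρ' := t' + 1) ?_
            (by omega)
          rw [← hst.2]; exact hn3
        refine ⟨k2, by omega, hr2, ?_, ?_⟩
        · rw [hl2, lab, ← hl1, hkk, hl3, lab, ← mul_assoc]
          have hcancel : (FreeGroup.mk [lt t] * FreeGroup.mk [lt t'] : FreeGroup (Fin r)) = 1 := by
            have e1 : lt t' = ((lt t).1, !(lt t).2) := by
              refine Prod.ext he1 ?_
              show (lt t').2 = !(lt t).2
              cases h2 : (lt t).2 <;> cases h3 : (lt t').2 <;> simp_all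
            have e2 : FreeGroup.mk [lt t'] = (FreeGroup.mk [lt t])⁻¹ := by
              rw [FreeGroup.inv_mk, e1]; rfl
            rw [e2, mul_inv_cancel]
          rw [hcancel, one_mul]
        · rw [← hst.1]; exact near_mono h1 (by omega) hn2'

include h1 hinv hc in
/-- If a trajectory closes up although the label is non-trivial then there is a coincidence. -/
lemma exists_bad (hfin : traj lt c v g l = v) (hlab : lab lt l ≠ 1) :
    ∃ t < l, fresh lt c v g t ∧ ∃ k ≤ t,
      near C (2 * l + 2) (traj lt c v g k) (traj lt c v g (t + 1)) := by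
  by_contra hno
  push Not at hno
  obtain ⟨k, hk, hr, hl, hn⟩ := root_exists h1 hinv hc hno l le_rfl
  rcases hr with h0 | hf
  · subst h0
    exact hlab (by rw [← hl]; rfl)
  · rcases Nat.eq_zero_or_pos k with h0 | h0
    · subst h0
      exact hlab (by rw [← hl]; rfl)
    · have h2 := hno (k - 1) (by omega) hf 0 (by omega)
      rw [show k - 1 + 1 = k by omega] at h2
      apply h2
      have h3 := near_symm hinv hn
      rw [hfin] at h3
      exact near_mono h1 (by omega) h3

end traj

section count

variable {n r : ℕ} (lt : ℕ → Fin r × Bool) (c : ℕ → P n) (v : Fin n)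

/-- change `g` at the letter of step `t` by a transposition -/
def modify (g : Fin r → P n) (t : ℕ) (b b' : Fin n) : Fin r → P n :=
  Function.update g (lt t).1 (sp (Equiv.swap b b' * sp (g (lt t).1) (lt t).2) (lt t).2)

lemma modify_same (g : Fin r → P n) (t : ℕ) (b b' : Fin n) :
    sp (modify lt g t b b' (lt t).1) (lt t).2 = Equiv.swap b b' * sp (g (lt t).1) (lt t).2 := by
  rw [modify, Function.update_self, sp_sp]

lemma modify_modify (g : Fin r → P n) (t : ℕ) (b b' : Fin n) :
    modify lt (modify lt g t b b') t b b' = g := by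
  conv_lhs => rw [modify]
  rw [modify_same, ← mul_assoc, Equiv.swap_mul_self, one_mul, sp_sp, modify,
    Function.update_idem, Function.update_eq_self]

/-- the points met before step `t` -/
def hist (g : Fin r → P n) (t : ℕ) : Finset (Fin n) :=
  (Finset.range t).image (src lt c v g) ∪ (Finset.range t).image fun t' => traj lt c v g (t' + 1)

lemma card_hist (g : Fin r → P n) (t : ℕ) : (hist lt c v g t).card ≤ 2 * t := by
  have h1 := Finset.card_union_le ((Finset.range t).image (src lt c v g))
    ((Finset.range t).image fun t' => traj lt c v g (t' + 1))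
  have h2 : ((Finset.range t).image (src lt c v g)).card ≤ t := by
    simpa using Finset.card_image_le (s := Finset.range t) (f := src lt c v g)
  have h3 : ((Finset.range t).image fun t' => traj lt c v g (t' + 1)).card ≤ t := by
    simpa using Finset.card_image_le (s := Finset.range t) (f := fun t' => traj lt c v g (t' + 1))
  unfold hist
  omega

variable {lt c v}

/-- the modification does not change the history -/
lemma traj_modify {g : Fin r → P n} {t : ℕ} (hf : fresh lt c v g t) {b' : Fin n}
    (hb' : b' ∉ hist lt c v g t) (t' : ℕ) : t' ≤ t →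
    traj lt c v (modify lt g t (traj lt c v g (t + 1)) b') t' = traj lt c v g t' := by
  induction t' with
  | zero => intro _; rfl
  | succ t' ih =>
    intro ht'
    have ih' := ih (by omega)
    have goal' : sp (modify lt g t (traj lt c v g (t + 1)) b' (lt t').1) (lt t').2
        (src lt c v g t') = traj lt c v g (t' + 1) → traj lt c v
        (modify lt g t (traj lt c v g (t + 1)) b') (t' + 1) = traj lt c v g (t' + 1) := by
      intro h
      rw [← h, traj_succ lt c v _ t', src, ih', ← src]
    apply goal'
    by_cases hi : (lt t').1 = (lt t).1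
    swap
    · rw [modify, Function.update_of_ne hi]; rfl
    -- same generator
    have hs : src lt c v g t' ≠ b' := by
      intro h; apply hb'
      rw [hist, Finset.mem_union, Finset.mem_image]
      exact Or.inl ⟨t', Finset.mem_range.2 (by omega), h⟩
    have ht : traj lt c v g (t' + 1) ≠ b' := by
      intro h; apply hb'
      rw [hist, Finset.mem_union, Finset.mem_image, Finset.mem_image]
      exact Or.inr ⟨t', Finset.mem_range.2 (by omega), h⟩
    have hne := hf t' (by omega)
    have hb : traj lt c v g (t + 1) = sp (g (lt t).1) (lt t).2 (src lt c v g t) := rfl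
    have hb2 : traj lt c v g (t' + 1) = sp (g (lt t).1) (lt t').2 (src lt c v g t') := by
      rw [← hi]; rfl
    have hm := modify_same lt g t (traj lt c v g (t + 1)) b'
    rw [hi]
    by_cases hsg : (lt t').2 = (lt t).2
    · rw [hsg, hm, Equiv.Perm.mul_apply]
      rw [hsg] at hb2
      rw [← hb2]
      apply Equiv.swap_apply_of_ne_of_ne _ ht
      intro h
      apply hne
      have h5 : src lt c v g t' = src lt c v g t := by
        rw [hb2, hb] at h
        exact (sp (g (lt t).1) (lt t).2).injective h
      rw [edge, edge, hi, hsg, h5, h]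
    · -- opposite signs
      have e1 : ∀ h : P n, sp h (lt t').2 = (sp h (lt t).2)⁻¹ := by
        intro h
        cases h2 : (lt t).2 <;> cases h3 : (lt t').2 <;> simp_all [sp]
      rw [e1, hm, mul_inv_rev, Equiv.swap_inv, Equiv.Perm.mul_apply]
      rw [e1] at hb2
      rw [hb2]
      congr 1
      apply Equiv.swap_apply_of_ne_of_ne _ hs
      intro h
      apply hne
      have h5 : traj lt c v g (t' + 1) = src lt c v g t := by
        rw [hb2, h, hb]; simp
      rw [edge, edge, hi, h5, h]
      cases h2 : (lt t).2 <;> cases h3 : (lt t').2 <;> simp_all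

lemma traj_modify_last {g : Fin r → P n} {t : ℕ} (hf : fresh lt c v g t) {b' : Fin n}
    (hb' : b' ∉ hist lt c v g t) :
    traj lt c v (modify lt g t (traj lt c v g (t + 1)) b') (t + 1) = b' := by
  rw [traj_succ, src, traj_modify hf hb' t le_rfl, ← src, modify_same, Equiv.Perm.mul_apply]
  rw [show sp (g (lt t).1) (lt t).2 (src lt c v g t) = traj lt c v g (t + 1) from rfl]
  exact Equiv.swap_apply_left _ _

variable (lt c v)

open Classical in
/-- The number of `g` with a coincidence at step `t` is small. -/
lemma card_bad (C : Finset (P n)) (R t : ℕ) :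
    (Finset.univ.filter fun g : Fin r → P n => fresh lt c v g t ∧ ∃ k ≤ t,
      near C R (traj lt c v g k) (traj lt c v g (t + 1))).card * (n - 2 * t) ≤
      (t + 1) * (C ^ R).card * Fintype.card (Fin r → P n) := by
  set Bad := Finset.univ.filter fun g : Fin r → P n => fresh lt c v g t ∧ ∃ k ≤ t,
      near C R (traj lt c v g k) (traj lt c v g (t + 1)) with hBad
  have hB : ∀ g ∈ Bad, fresh lt c v g t ∧ ∃ k ≤ t,
      near C R (traj lt c v g k) (traj lt c v g (t + 1)) := by
    intro g hg
    exact (Finset.mem_filter.1 hg).2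
  have hch : ∀ g : Fin r → P n, ∃ ks : ℕ × P n, g ∈ Bad → ks.1 ≤ t ∧ ks.2 ∈ C ^ R ∧
      traj lt c v g (t + 1) = ks.2 (traj lt c v g ks.1) := by
    intro g
    by_cases hg : g ∈ Bad
    · obtain ⟨_, k, hk, s, hs, he⟩ := hB g hg
      exact ⟨(k, s), fun _ => ⟨hk, hs, he⟩⟩
    · exact ⟨(0, 1), fun h => absurd h hg⟩
  choose ks hks using hch
  let A : Finset (Σ _ : Fin r → P n, Fin n) := Bad.sigma fun g => (hist lt c v g t)ᶜ
  have hA : Bad.card * (n - 2 * t) ≤ A.card := by
    rw [Finset.card_sigma, ← smul_eq_mul]
    apply Finset.card_nsmul_le_sum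
    intro g _
    rw [Finset.card_compl, Fintype.card_fin]
    have := card_hist lt c v g t
    omega
  let B : Finset ((Fin r → P n) × (ℕ × P n)) := Finset.univ ×ˢ (Finset.range (t + 1) ×ˢ (C ^ R))
  have hBc : B.card = Fintype.card (Fin r → P n) * ((t + 1) * (C ^ R).card) := by
    rw [Finset.card_product, Finset.card_product, Finset.card_range, Finset.card_univ]
  refine hA.trans ?_
  have hle : A.card ≤ B.card := by
    apply Finset.card_le_card_of_injOn
      (fun x => (modify lt x.1 t (traj lt c v x.1 (t + 1)) x.2, ks x.1))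
    · rintro ⟨g, b'⟩ hx
      obtain ⟨hg, hb'⟩ := Finset.mem_sigma.1 hx
      have := hks g hg
      simp only [B, Finset.coe_product, Set.mem_prod, Finset.mem_coe, Finset.mem_univ, true_and,
        Finset.mem_range]
      exact ⟨by omega, this.2.1⟩
    · rintro ⟨g, b'⟩ hx ⟨g₂, b₂'⟩ hx₂ heq
      obtain ⟨hg, hb'⟩ := Finset.mem_sigma.1 hx
      obtain ⟨hg₂, hb₂'⟩ := Finset.mem_sigma.1 hx₂
      simp only [Finset.mem_compl] at hb' hb₂'
      simp only [Prod.mk.injEq] at heq
      obtain ⟨he1, he2⟩ := heq
      have f1 := (hB g hg).1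
      have f2 := (hB g₂ hg₂).1
      have t1 := traj_modify_last f1 hb'
      have t2 := traj_modify_last f2 hb₂'
      rw [he1, t2] at t1
      have hk := hks g hg
      have hk₂ := hks g₂ hg₂
      have m1 := traj_modify f1 hb' (ks g).1 hk.1
      have m2 := traj_modify f2 hb₂' (ks g).1 (by rw [he2]; exact hk₂.1)
      rw [he1, m2] at m1
      have hbb : traj lt c v g (t + 1) = traj lt c v g₂ (t + 1) := by
        rw [hk.2.2, hk₂.2.2, ← he2, m1]
      have hgg : g = g₂ := by
        rw [← modify_modify lt g t (traj lt c v g (t + 1)) b',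
          ← modify_modify lt g₂ t (traj lt c v g₂ (t + 1)) b₂', he1, hbb, t1]
      subst hgg
      rw [t1]
  rw [hBc] at hle
  calc A.card ≤ _ := hle
    _ = _ := by ring

open Classical in
/-- The number of `g` for which `v` is a fixed point of a non-singular word is small. -/
lemma card_fix (l : ℕ) (hlab : lab lt l ≠ 1) (C : Finset (P n)) (h1 : (1 : P n) ∈ C)
    (hinv : C⁻¹ = C) (hc : ∀ t < l, c t ∈ C) :
    (Finset.univ.filter fun g : Fin r → P n => traj lt c v g l = v).card * (n - 2 * l) ≤
      l * (l * C.card ^ (2 * l + 2)) * Fintype.card (Fin r → P n) := by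
  let Bad : ℕ → Finset (Fin r → P n) := fun t => Finset.univ.filter fun g : Fin r → P n =>
    fresh lt c v g t ∧ ∃ k ≤ t, near C (2 * l + 2) (traj lt c v g k) (traj lt c v g (t + 1))
  have hsub : (Finset.univ.filter fun g : Fin r → P n => traj lt c v g l = v) ⊆
      (Finset.range l).biUnion Bad := by
    intro g hg
    have hg' := (Finset.mem_filter.1 hg).2
    obtain ⟨t, ht, h2⟩ := exists_bad h1 hinv hc hg' hlab
    rw [Finset.mem_biUnion]
    exact ⟨t, Finset.mem_range.2 ht, Finset.mem_filter.2 ⟨Finset.mem_univ _, h2⟩⟩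
  calc (Finset.univ.filter fun g : Fin r → P n => traj lt c v g l = v).card * (n - 2 * l)
      ≤ ((Finset.range l).biUnion Bad).card * (n - 2 * l) :=
        Nat.mul_le_mul_right _ (Finset.card_le_card hsub)
    _ ≤ (∑ t ∈ Finset.range l, (Bad t).card) * (n - 2 * l) :=
        Nat.mul_le_mul_right _ Finset.card_biUnion_le
    _ = ∑ t ∈ Finset.range l, (Bad t).card * (n - 2 * l) := by rw [Finset.sum_mul]
    _ ≤ ∑ t ∈ Finset.range l, l * C.card ^ (2 * l + 2) * Fintype.card (Fin r → P n) := by
        apply Finset.sum_le_sum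
        intro t ht
        have ht' := Finset.mem_range.1 ht
        calc (Bad t).card * (n - 2 * l) ≤ (Bad t).card * (n - 2 * t) :=
              Nat.mul_le_mul_left _ (by omega)
          _ ≤ (t + 1) * (C ^ (2 * l + 2)).card * Fintype.card (Fin r → P n) :=
              card_bad lt c v C (2 * l + 2) t
          _ ≤ l * C.card ^ (2 * l + 2) * Fintype.card (Fin r → P n) := by
              apply Nat.mul_le_mul_right
              exact Nat.mul_le_mul (by omega) Finset.card_pow_le
    _ = _ := by rw [Finset.sum_const, Finset.card_range, smul_eq_mul]; ring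

end count

section cycles

variable {n : ℕ}

/-- the sum of the inverse periods, i.e. the number of cycles -/
noncomputable def cyc (σ : P n) : ℝ := ∑ a, (1 : ℝ) / (Function.minimalPeriod σ a)

lemma mp_pos (σ : P n) (a : Fin n) : 0 < Function.minimalPeriod σ a :=
  Function.minimalPeriod_pos_of_mem_periodicPts (σ.injective.mem_periodicPts a)

lemma order_aux (σ : P n) (S : Finset (Fin n)) : (∀ a ∈ S, σ a ∈ S) →
    ∃ e : Fin n → ℕ, Set.InjOn e S ∧ (∀ a ∈ S, e a < S.card) ∧
      ((S.filter fun a => e (σ a) ≠ e a + 1).card : ℝ) ≤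
        ∑ a ∈ S, (1 : ℝ) / (Function.minimalPeriod σ a) := by
  induction S using Finset.strongInduction with
  | H S ih =>
    intro hS
    rcases S.eq_empty_or_nonempty with rfl | ⟨x, hx⟩
    · exact ⟨fun _ => 0, by simp, by simp, by simp⟩
    set m := Function.minimalPeriod σ x with hm
    have hm0 : 0 < m := mp_pos σ x
    have hper : σ^[m] x = x := Function.iterate_minimalPeriod
    have hinj : ∀ i j, i < m → j < m → σ^[i] x = σ^[j] x → i = j := by
      intro i j hi hj h
      exact Function.iterate_injOn_Iio_minimalPeriod hi hj h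
    let O : Finset (Fin n) := (Finset.range m).image fun i => σ^[i] x
    have hO : ∀ a, a ∈ O ↔ ∃ i < m, σ^[i] x = a := by
      intro a
      simp [O]
    have hOS : O ⊆ S := by
      intro a ha
      obtain ⟨i, _, rfl⟩ := (hO a).1 ha
      have : ∀ i, σ^[i] x ∈ S := by
        intro i
        induction i with
        | zero => exact hx
        | succ i ihi => rw [Function.iterate_succ_apply']; exact hS _ ihi
      exact this i
    have hcardO : O.card = m := by
      rw [Finset.card_image_of_injOn, Finset.card_range]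
      intro i hi j hj h
      exact hinj i j (by simpa using hi) (by simpa using hj) h
    have hOσ : ∀ a, a ∈ O → σ a ∈ O := by
      intro a ha
      obtain ⟨i, hi, rfl⟩ := (hO a).1 ha
      rw [← Function.iterate_succ_apply' σ i x]
      rw [hO]
      by_cases h : i + 1 < m
      · exact ⟨i + 1, h, rfl⟩
      · have : i.succ = m := by omega
        rw [this, hper]
        exact ⟨0, hm0, rfl⟩
    have hOσ' : ∀ a, σ a ∈ O → a ∈ O := by
      intro a ha
      obtain ⟨i, hi, hia⟩ := (hO _).1 ha
      rw [hO]
      rcases i with _ | i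
      · refine ⟨m - 1, by omega, ?_⟩
        apply σ.injective
        rw [← hia, ← Function.iterate_succ_apply' σ (m - 1) x,
          show (m - 1).succ = m by omega, hper]
        rfl
      · refine ⟨i, by omega, ?_⟩
        apply σ.injective
        rw [← hia, Function.iterate_succ_apply']
    have hxO : x ∈ O := (hO x).2 ⟨0, hm0, rfl⟩
    have hss : S \ O ⊂ S := by
      refine Finset.ssubset_iff_subset_ne.2 ⟨Finset.sdiff_subset, ?_⟩
      intro h
      have : x ∈ S \ O := by rw [h]; exact hx
      exact (Finset.mem_sdiff.1 this).2 hxO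
    obtain ⟨e', he1, he2, he3⟩ := ih (S \ O) hss (by
      intro a ha
      rw [Finset.mem_sdiff] at ha ⊢
      exact ⟨hS a ha.1, fun h => ha.2 (hOσ' a h)⟩)
    have hidx : ∀ a, ∃ i, a ∈ O → i < m ∧ σ^[i] x = a := by
      intro a
      by_cases ha : a ∈ O
      · obtain ⟨i, hi, h⟩ := (hO a).1 ha
        exact ⟨i, fun _ => ⟨hi, h⟩⟩
      · exact ⟨0, fun h => absurd h ha⟩
    choose idx hidx using hidx
    have hcard : S.card = (S \ O).card + m := by
      rw [← hcardO, Finset.card_sdiff_add_card_eq_card hOS]
    let e : Fin n → ℕ := fun a => if a ∈ O then (S \ O).card + idx a else e' a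
    have heO : ∀ a, a ∈ O → e a = (S \ O).card + idx a := fun a ha => if_pos ha
    have heN : ∀ a, a ∉ O → e a = e' a := fun a ha => if_neg ha
    refine ⟨e, ?_, ?_, ?_⟩
    · intro a ha b hb hab
      have ha' : a ∈ S := ha
      have hb' : b ∈ S := hb
      by_cases haO : a ∈ O <;> by_cases hbO : b ∈ O
      · rw [heO a haO, heO b hbO] at hab
        have : idx a = idx b := by omega
        rw [← (hidx a haO).2, ← (hidx b hbO).2, this]
      · rw [heO a haO, heN b hbO] at hab
        have := he2 b (Finset.mem_sdiff.2 ⟨hb', hbO⟩)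
        omega
      · rw [heN a haO, heO b hbO] at hab
        have := he2 a (Finset.mem_sdiff.2 ⟨ha', haO⟩)
        omega
      · rw [heN a haO, heN b hbO] at hab
        exact he1 (by simp [ha', haO]) (by simp [hb', hbO]) hab
    · intro a ha
      by_cases haO : a ∈ O
      · rw [heO a haO, hcard]
        have := (hidx a haO).1
        omega
      · rw [heN a haO, hcard]
        have := he2 a (Finset.mem_sdiff.2 ⟨ha, haO⟩)
        omega
    · have hsub : (S.filter fun a => e (σ a) ≠ e a + 1) ⊆
          insert (σ^[m - 1] x) ((S \ O).filter fun a => e' (σ a) ≠ e' a + 1) := by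
        intro a ha
        obtain ⟨haS, hne⟩ := Finset.mem_filter.1 ha
        rw [Finset.mem_insert]
        by_cases haO : a ∈ O
        · left
          obtain ⟨hi1, hi2⟩ := hidx a haO
          by_contra hcon
          apply hne
          have h1 : idx a + 1 < m := by
            by_contra h
            apply hcon
            rw [← hi2, show idx a = m - 1 by omega]
          have h2 : idx (σ a) = idx a + 1 := by
            obtain ⟨hj1, hj2⟩ := hidx (σ a) (hOσ a haO)
            apply hinj _ _ hj1 h1
            rw [hj2, Function.iterate_succ_apply', hi2]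
          rw [heO a haO, heO _ (hOσ a haO), h2]
          omega
        · right
          have hσ : σ a ∉ O := fun h => haO (hOσ' a h)
          rw [Finset.mem_filter, Finset.mem_sdiff]
          rw [heN a haO, heN _ hσ] at hne
          exact ⟨⟨haS, haO⟩, hne⟩
      have hle : (S.filter fun a => e (σ a) ≠ e a + 1).card ≤
          ((S \ O).filter fun a => e' (σ a) ≠ e' a + 1).card + 1 :=
        (Finset.card_le_card hsub).trans (Finset.card_insert_le _ _)
      have hsumO : ∑ a ∈ O, (1 : ℝ) / (Function.minimalPeriod σ a) = 1 := by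
        have : ∀ a ∈ O, (1 : ℝ) / (Function.minimalPeriod σ a) = 1 / m := by
          intro a ha
          obtain ⟨i, _, rfl⟩ := (hO a).1 ha
          rw [Function.minimalPeriod_apply_iterate (σ.injective.mem_periodicPts x)]
        rw [Finset.sum_congr rfl this, Finset.sum_const, hcardO, nsmul_eq_mul]
        field_simp
      have hsum : ∑ a ∈ S, (1 : ℝ) / (Function.minimalPeriod σ a) =
          ∑ a ∈ S \ O, (1 : ℝ) / (Function.minimalPeriod σ a) + 1 := by
        have h5 := Finset.sum_sdiff hOS (f := fun a => (1 : ℝ) / (Function.minimalPeriod σ a))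
        rw [hsumO] at h5
        exact h5.symm
      rw [hsum]
      have hle' : ((S.filter fun a => e (σ a) ≠ e a + 1).card : ℝ) ≤
          ((S \ O).filter fun a => e' (σ a) ≠ e' a + 1).card + 1 := by exact_mod_cast hle
      linarith

lemma order_exists (σ : P n) : ∃ e : Fin n ≃ Fin n,
    ((Finset.univ.filter fun a => ((e (σ a) : Fin n) : ℕ) ≠ (e a : ℕ) + 1).card : ℝ) ≤ cyc σ := by
  obtain ⟨e, h1, h2, h3⟩ := order_aux σ Finset.univ (by simp)
  have h2' : ∀ a, e a < n := by
    intro a
    have := h2 a (Finset.mem_univ a)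
    simpa using this
  let f : Fin n → Fin n := fun a => ⟨e a, h2' a⟩
  have hf : Function.Injective f := by
    intro a b hab
    exact h1 (by simp) (by simp) (congrArg Fin.val hab)
  exact ⟨Equiv.ofBijective f (Finite.injective_iff_bijective.1 hf), h3⟩

lemma match_exists (s T : P n) : ∃ ρ : P n,
    ((Finset.univ.filter fun a => T (ρ a) ≠ ρ (s a)).card : ℝ) ≤ cyc s + cyc T := by
  obtain ⟨e, he⟩ := order_exists s
  obtain ⟨f, hf⟩ := order_exists T
  refine ⟨e.trans f.symm, ?_⟩
  let ρ : P n := e.trans f.symm
  have hρ : ∀ a, f (ρ a) = e a := fun a => by simp [ρ]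
  have hsub : (Finset.univ.filter fun a => T (ρ a) ≠ ρ (s a)) ⊆
      (Finset.univ.filter fun a => ((e (s a) : Fin n) : ℕ) ≠ (e a : ℕ) + 1) ∪
      (Finset.univ.filter fun a => ((f (T a) : Fin n) : ℕ) ≠ (f a : ℕ) + 1).image ρ.symm := by
    intro a ha
    have ha' := (Finset.mem_filter.1 ha).2
    rw [Finset.mem_union, Finset.mem_filter, Finset.mem_image]
    by_contra hcon
    push Not at hcon
    obtain ⟨h1, h2⟩ := hcon
    have h1' := h1 (Finset.mem_univ a)
    have h2' : ((f (T (ρ a)) : Fin n) : ℕ) = (f (ρ a) : ℕ) + 1 := by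
      by_contra h
      exact h2 (ρ a) (Finset.mem_filter.2 ⟨Finset.mem_univ _, h⟩) (by simp)
    apply ha'
    apply f.injective
    rw [hρ]
    apply Fin.ext
    rw [h2', hρ, h1']
  have hc := (Finset.card_le_card hsub).trans (Finset.card_union_le _ _)
  have hc2 := hc.trans (Nat.add_le_add_left Finset.card_image_le _)
  have hc3 : ((Finset.univ.filter fun a => T (ρ a) ≠ ρ (s a)).card : ℝ) ≤
      (Finset.univ.filter fun a => ((e (s a) : Fin n) : ℕ) ≠ (e a : ℕ) + 1).card +
      (Finset.univ.filter fun a => ((f (T a) : Fin n) : ℕ) ≠ (f a : ℕ) + 1).card := by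
    exact_mod_cast hc2
  exact hc3.trans (add_le_add he hf)

/-- the number of fixed points -/
def fixNum (σ : P n) : ℕ := (Finset.univ.filter fun a => σ a = a).card

lemma cyc_le (σ : P n) {K : ℕ} (hK : 0 < K) :
    cyc σ ≤ n / K + ∑ k ∈ Finset.range K, (fixNum (σ ^ (k + 1)) : ℝ) := by
  have h1 : ∀ a : Fin n, (1 : ℝ) / (Function.minimalPeriod σ a) ≤
      1 / K + ∑ k ∈ Finset.range K, if (σ ^ (k + 1)) a = a then (1 : ℝ) else 0 := by
    intro a
    have hpos := mp_pos σ a
    by_cases h : Function.minimalPeriod σ a ≤ K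
    · have h2 : (1 : ℝ) ≤ ∑ k ∈ Finset.range K, if (σ ^ (k + 1)) a = a then (1 : ℝ) else 0 := by
        have h3 := Finset.single_le_sum (s := Finset.range K)
          (f := fun k => if (σ ^ (k + 1)) a = a then (1 : ℝ) else 0)
          (fun k _ => by positivity) (Finset.mem_range.2
            (show Function.minimalPeriod σ a - 1 < K by omega))
        refine le_trans ?_ h3
        have h4 : (σ ^ (Function.minimalPeriod σ a - 1 + 1)) a = a := by
          rw [Nat.sub_add_cancel hpos, Equiv.Perm.coe_pow]
          exact Function.iterate_minimalPeriod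
        simp only [h4, if_true, le_refl]
      have h5 : (1 : ℝ) / (Function.minimalPeriod σ a) ≤ 1 := by
        rw [div_le_one (by exact_mod_cast hpos)]
        exact_mod_cast hpos
      have h6 : (0 : ℝ) ≤ 1 / K := by positivity
      linarith
    · have h2 : (1 : ℝ) / (Function.minimalPeriod σ a) ≤ 1 / K := by
        apply one_div_le_one_div_of_le (by exact_mod_cast hK)
        exact_mod_cast (by omega : K ≤ Function.minimalPeriod σ a)
      have h3 : (0 : ℝ) ≤ ∑ k ∈ Finset.range K, if (σ ^ (k + 1)) a = a then (1 : ℝ) else 0 :=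
        Finset.sum_nonneg fun k _ => by positivity
      linarith
  calc cyc σ ≤ ∑ a : Fin n, (1 / K + ∑ k ∈ Finset.range K,
        if (σ ^ (k + 1)) a = a then (1 : ℝ) else 0) := Finset.sum_le_sum fun a _ => h1 a
    _ = n / K + ∑ k ∈ Finset.range K, (fixNum (σ ^ (k + 1)) : ℝ) := by
        rw [Finset.sum_add_distrib, Finset.sum_const, Finset.card_univ, Fintype.card_fin,
          nsmul_eq_mul, Finset.sum_comm]
        congr 1
        · ring
        · apply Finset.sum_congr rfl
          intro k _
          rw [fixNum, Finset.sum_boole]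

end cycles

section words

variable {n r : ℕ}

/-- A word with constants `c_0 x_{ι(1)}^{ε(1)} c_1 ⋯ x_{ι(l)}^{ε(l)} c_l` in `S_n`: the
constant `c_0` and the list of the pairs `(x_{ι(j)}^{ε(j)}, c_j)`.  The letter `(i, true)`
stands for `x_i` and `(i, false)` for `x_i⁻¹`. -/
structure CWord (n r : ℕ) where
  /-- the constant `c_0` -/
  head : P n
  /-- the letters together with the constants following them -/
  tail : List ((Fin r × Bool) × P n)

/-- The length of a word with constants. -/
def CWord.length (w : CWord n r) : ℕ := w.tail.length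

/-- The product over the list. -/
def evalList (L : List ((Fin r × Bool) × P n)) (g : Fin r → P n) : P n :=
  (L.map fun x => sp (g x.1.1) x.1.2 * x.2).prod

/-- The word map. -/
def CWord.eval (w : CWord n r) (g : Fin r → P n) : P n := w.head * evalList w.tail g

/-- The product of the letters in the free group. -/
def epsList (L : List ((Fin r × Bool) × P n)) : FreeGroup (Fin r) :=
  (L.map fun x => FreeGroup.mk [x.1]).prod

/-- The image of the word in the free group. -/
def CWord.eps (w : CWord n r) : FreeGroup (Fin r) := epsList w.tail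

lemma seq_eval (L : List ((Fin r × Bool) × P n)) (d : (Fin r × Bool) × P n) (v : Fin n)
    (g : Fin r → P n) :
    traj (fun t => (L.reverse.getD t d).1) (fun t => (L.reverse.getD t d).2) v g L.length =
      evalList L g v := by
  have key : ∀ t ≤ L.reverse.length,
      traj (fun t => (L.reverse.getD t d).1) (fun t => (L.reverse.getD t d).2) v g t =
      evalList (L.reverse.take t).reverse g v := by
    intro t
    induction t with
    | zero => intro _; simp [traj, evalList]
    | succ t ih =>
      intro ht
      have ih' := ih (by omega)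
      have hlt : t < L.reverse.length := by omega
      rw [traj_succ, src, ih', List.take_succ_eq_append_getElem hlt, List.reverse_append,
        List.getD_eq_getElem _ _ hlt]
      simp only [evalList, List.reverse_singleton, List.cons_append, List.nil_append,
        List.map_cons, List.prod_cons, Equiv.Perm.mul_apply]
  have := key L.length (by simp)
  rw [this, List.take_of_length_le (by simp), List.reverse_reverse]

lemma seq_lab (L : List ((Fin r × Bool) × P n)) (d : (Fin r × Bool) × P n) :
    lab (fun t => (L.reverse.getD t d).1) L.length = epsList L := by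
  have key : ∀ t ≤ L.reverse.length,
      lab (fun t => (L.reverse.getD t d).1) t = epsList (L.reverse.take t).reverse := by
    intro t
    induction t with
    | zero => intro _; simp [lab, epsList]
    | succ t ih =>
      intro ht
      have ih' := ih (by omega)
      have hlt : t < L.reverse.length := by omega
      rw [lab, ih', List.take_succ_eq_append_getElem hlt, List.reverse_append,
        List.getD_eq_getElem _ _ hlt]
      simp only [epsList, List.reverse_singleton, List.cons_append, List.nil_append,
        List.map_cons, List.prod_cons]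
  have := key L.length (by simp)
  rw [this, List.take_of_length_le (by simp), List.reverse_reverse]

lemma eval_power (L : List ((Fin r × Bool) × P n)) (k : ℕ) (g : Fin r → P n) :
    evalList (List.replicate k L).flatten g = evalList L g ^ k := by
  induction k with
  | zero => simp [evalList]
  | succ k ih =>
    rw [List.replicate_succ, List.flatten_cons, pow_succ', ← ih]
    simp [evalList]

lemma eps_power (L : List ((Fin r × Bool) × P n)) (k : ℕ) :
    epsList (List.replicate k L).flatten = epsList L ^ k := by
  induction k with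
  | zero => simp [epsList]
  | succ k ih =>
    rw [List.replicate_succ, List.flatten_cons, pow_succ', ← ih]
    simp [epsList]

/-- the bound -/
def bd (m : ℕ) : ℕ := m * (m * (2 * m + 1) ^ (2 * m + 2))

open Classical in
lemma list_fix (L : List ((Fin r × Bool) × P n)) (hL : epsList L ≠ 1) (v : Fin n) :
    (Finset.univ.filter fun g : Fin r → P n => evalList L g v = v).card * (n - 2 * L.length) ≤
      bd L.length * Fintype.card (Fin r → P n) := by
  have hne : L ≠ [] := by
    rintro rfl
    exact hL (by simp [epsList])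
  let d : (Fin r × Bool) × P n := L.head hne
  let S : Finset (P n) := (L.map Prod.snd).toFinset
  let C : Finset (P n) := insert 1 (S ∪ S⁻¹)
  have h1 : (1 : P n) ∈ C := Finset.mem_insert_self _ _
  have hinv : C⁻¹ = C := by
    ext x
    simp only [C, Finset.mem_inv', Finset.mem_insert, Finset.mem_union, inv_inv, inv_eq_one]
    tauto
  have hcard : C.card ≤ 2 * L.length + 1 := by
    have e1 : S.card ≤ L.length := by
      have := List.toFinset_card_le (L.map Prod.snd)
      simpa using this
    have e2 : (S⁻¹).card = S.card := Finset.card_inv S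
    have e3 := Finset.card_union_le S S⁻¹
    have e4 := Finset.card_insert_le (1 : P n) (S ∪ S⁻¹)
    show (insert 1 (S ∪ S⁻¹)).card ≤ _
    omega
  have hlab := seq_lab L d
  have hfix := card_fix (fun t => (L.reverse.getD t d).1) (fun t => (L.reverse.getD t d).2) v
    L.length (by rw [hlab]; exact hL) C h1 hinv (by
      intro t ht
      have hlt : t < L.reverse.length := by simpa using ht
      show (L.reverse.getD t d).2 ∈ C
      rw [List.getD_eq_getElem _ _ hlt]
      apply Finset.mem_insert_of_mem
      apply Finset.mem_union_left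
      rw [List.mem_toFinset, List.mem_map]
      exact ⟨_, List.mem_reverse.1 (List.getElem_mem hlt), rfl⟩)
  simp only [seq_eval L d v] at hfix
  refine hfix.trans ?_
  apply Nat.mul_le_mul_right
  unfold bd
  gcongr

lemma fixNum_conj (h σ : P n) : fixNum (h⁻¹ * σ * h) = fixNum σ := by
  unfold fixNum
  apply Finset.card_bij (fun a _ => h a)
  · intro a ha
    have ha' := (Finset.mem_filter.1 ha).2
    simp only [Equiv.Perm.mul_apply, Equiv.Perm.inv_eq_iff_eq] at ha'
    exact Finset.mem_filter.2 ⟨Finset.mem_univ _, ha'⟩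
  · intro a _ b _ hab
    exact h.injective hab
  · intro b hb
    have hb' := (Finset.mem_filter.1 hb).2
    refine ⟨h⁻¹ b, Finset.mem_filter.2 ⟨Finset.mem_univ _, ?_⟩, by simp⟩
    simp [Equiv.Perm.mul_apply, hb']

lemma word_fix (w : CWord n r) (hw : w.eps ≠ 1) {k : ℕ} (hk : 0 < k) :
    (∑ g : Fin r → P n, fixNum ((w.eval g) ^ k)) * (n - 2 * (k * w.length)) ≤
      n * bd (k * w.length) * Fintype.card (Fin r → P n) := by
  classical
  have hne : w.tail ≠ [] := by
    intro h
    exact hw (by simp [CWord.eps, epsList, h])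
  let L' : List ((Fin r × Bool) × P n) :=
    w.tail.dropLast ++ [((w.tail.getLast hne).1, (w.tail.getLast hne).2 * w.head)]
  have hlen : L'.length = w.length := by
    show (w.tail.dropLast ++ [_]).length = w.tail.length
    rw [List.length_append, List.length_dropLast, List.length_singleton]
    have := List.length_pos_iff.2 hne
    omega
  have hsplit := List.dropLast_append_getLast hne
  have heps : epsList L' = w.eps := by
    rw [CWord.eps]
    conv_rhs => rw [← hsplit]
    simp only [L', epsList, List.map_append, List.prod_append, List.map_cons, List.map_nil]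
  have heval : ∀ g, evalList L' g = evalList w.tail g * w.head := by
    intro g
    conv_rhs => rw [← hsplit]
    simp only [L', evalList, List.map_append, List.prod_append, List.map_cons, List.map_nil,
      List.prod_cons, List.prod_nil, mul_one, mul_assoc]
  let M := (List.replicate k L').flatten
  have hM : M.length = k * w.length := by
    simp only [M, List.length_flatten, List.map_replicate, List.sum_replicate, hlen, smul_eq_mul]
  have hMe : epsList M ≠ 1 := by
    rw [eps_power, heps]
    intro h
    exact hw ((pow_eq_one_iff_left (by omega)).1 h)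
  have hfix : ∀ g, fixNum ((w.eval g) ^ k) = fixNum (evalList M g) := by
    intro g
    rw [eval_power, heval]
    have e : evalList w.tail g * w.head = w.head⁻¹ * w.eval g * w.head := by
      rw [CWord.eval]; group
    have e2 : (w.head⁻¹ * w.eval g * w.head) ^ k = w.head⁻¹ * (w.eval g) ^ k * w.head := by
      have := conj_pow (i := k) (a := w.head⁻¹) (b := w.eval g)
      rwa [inv_inv] at this
    rw [e, e2, fixNum_conj]
  simp only [hfix]
  have hswap : (∑ g : Fin r → P n, fixNum (evalList M g)) =
      ∑ v : Fin n, (Finset.univ.filter fun g : Fin r → P n => evalList M g v = v).card := by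
    simp only [fixNum, Finset.card_filter]
    rw [Finset.sum_comm]
  rw [hswap, Finset.sum_mul, ← hM]
  calc ∑ v : Fin n, (Finset.univ.filter fun g : Fin r → P n => evalList M g v = v).card *
        (n - 2 * M.length) ≤ ∑ v : Fin n, bd M.length * Fintype.card (Fin r → P n) :=
        Finset.sum_le_sum fun v _ => list_fix M hMe v
    _ = n * bd M.length * Fintype.card (Fin r → P n) := by
        rw [Finset.sum_const, Finset.card_univ, Fintype.card_fin, smul_eq_mul, mul_assoc]

lemma bd_mono {m m' : ℕ} (h : m ≤ m') : bd m ≤ bd m' := by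
  unfold bd
  have : (2 * m + 1) ^ (2 * m + 2) ≤ (2 * m' + 1) ^ (2 * m' + 2) :=
    (Nat.pow_le_pow_left (by omega) _).trans (Nat.pow_le_pow_right (by omega) (by omega))
  exact Nat.mul_le_mul h (Nat.mul_le_mul h this)

/-- the average number of cycles of the value of a non-singular word -/
lemma avg_cyc (w : CWord n r) (hw : w.eps ≠ 1) {K L₀ : ℕ} (hK : 0 < K) (hL : w.length ≤ L₀)
    (hn : 2 * (K * L₀) < n) :
    ∑ g : Fin r → P n, cyc (w.eval g) ≤ Fintype.card (Fin r → P n) *
      ((n : ℝ) / K + K * (n * bd (K * L₀) / ((n : ℝ) - 2 * (K * L₀)))) := by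
  have hpos : (0 : ℝ) < (n : ℝ) - 2 * (K * L₀) := by
    have : ((2 * (K * L₀) : ℕ) : ℝ) < n := by exact_mod_cast hn
    push_cast at this; linarith
  have h1 : ∀ k ∈ Finset.range K, (∑ g : Fin r → P n, (fixNum ((w.eval g) ^ (k + 1)) : ℝ)) ≤
      Fintype.card (Fin r → P n) * (n * bd (K * L₀) / ((n : ℝ) - 2 * (K * L₀))) := by
    intro k hk
    have hk' := Finset.mem_range.1 hk
    have hle : (k + 1) * w.length ≤ K * L₀ := Nat.mul_le_mul (by omega) hL
    have h2 := word_fix w hw (k := k + 1) (by omega)
    have h3 : (∑ g : Fin r → P n, fixNum ((w.eval g) ^ (k + 1))) * (n - 2 * (K * L₀)) ≤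
        n * bd (K * L₀) * Fintype.card (Fin r → P n) := by
      calc _ ≤ (∑ g : Fin r → P n, fixNum ((w.eval g) ^ (k + 1))) *
            (n - 2 * ((k + 1) * w.length)) := Nat.mul_le_mul_left _ (by omega)
        _ ≤ _ := h2
        _ ≤ _ := Nat.mul_le_mul_right _ (Nat.mul_le_mul_left _ (bd_mono hle))
    have h4 : ((∑ g : Fin r → P n, fixNum ((w.eval g) ^ (k + 1)) : ℕ) : ℝ) *
        ((n : ℝ) - 2 * (K * L₀)) ≤ n * bd (K * L₀) * Fintype.card (Fin r → P n) := by
      have h5 : ((n - 2 * (K * L₀) : ℕ) : ℝ) = (n : ℝ) - 2 * (K * L₀) := by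
        rw [Nat.cast_sub hn.le]; push_cast; ring
      rw [← h5]
      exact_mod_cast h3
    rw [← Nat.cast_sum, mul_div_assoc', le_div_iff₀ hpos]
    calc _ ≤ _ := h4
      _ = _ := by ring
  calc ∑ g : Fin r → P n, cyc (w.eval g) ≤ ∑ g : Fin r → P n, ((n : ℝ) / K +
        ∑ k ∈ Finset.range K, (fixNum ((w.eval g) ^ (k + 1)) : ℝ)) :=
        Finset.sum_le_sum fun g _ => cyc_le _ hK
    _ = Fintype.card (Fin r → P n) * ((n : ℝ) / K) +
        ∑ k ∈ Finset.range K, ∑ g : Fin r → P n, (fixNum ((w.eval g) ^ (k + 1)) : ℝ) := by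
        rw [Finset.sum_add_distrib, Finset.sum_const, Finset.card_univ, nsmul_eq_mul,
          Finset.sum_comm]
    _ ≤ Fintype.card (Fin r → P n) * ((n : ℝ) / K) + ∑ k ∈ Finset.range K,
        Fintype.card (Fin r → P n) * (n * bd (K * L₀) / ((n : ℝ) - 2 * (K * L₀))) := by
        gcongr with k hk
        exact h1 k hk
    _ = _ := by
        rw [Finset.sum_const, Finset.card_range, nsmul_eq_mul]; ring

end words

section coupling

variable {n : ℕ}

/-- The normalised Hamming metric. -/
noncomputable def hamming (σ τ : P n) : ℝ :=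
  ((Finset.univ.filter fun i => σ i ≠ τ i).card : ℝ) / n

/-- `γ` is a coupling of `μ` and `ν`. -/
structure IsCoupling (γ : P n → P n → ℝ) (μ ν : P n → ℝ) : Prop where
  nonneg : ∀ σ τ, 0 ≤ γ σ τ
  left : ∀ σ, ∑ τ, γ σ τ = μ σ
  right : ∀ τ, ∑ σ, γ σ τ = ν τ

/-- The Kantorovich–Rubinstein distance. -/
noncomputable def KR (μ ν : P n → ℝ) : ℝ :=
  sInf {c | ∃ γ, IsCoupling γ μ ν ∧ c = ∑ σ, ∑ τ, γ σ τ * hamming σ τ}

/-- The push-forward of the uniform measure on `A` under `f`. -/
noncomputable def push {A : Type} [Fintype A] (f : A → P n) : P n → ℝ := fun σ =>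
  ((Finset.univ.filter fun a => f a = σ).card : ℝ) / Fintype.card A

/-- The symmetrisation of a measure. -/
noncomputable def symmetrize (μ : P n → ℝ) : P n → ℝ := fun a =>
  (∑ σ : P n, μ (σ⁻¹ * a * σ)) / Fintype.card (P n)

/-- The uniform measure. -/
noncomputable def unif (n : ℕ) : P n → ℝ := fun _ => 1 / Fintype.card (P n)

lemma hamming_nonneg (σ τ : P n) : 0 ≤ hamming σ τ := by unfold hamming; positivity

lemma KR_nonneg (μ ν : P n → ℝ) : 0 ≤ KR μ ν := by
  apply Real.sInf_nonneg
  rintro c ⟨γ, hγ, rfl⟩
  exact Finset.sum_nonneg fun σ _ => Finset.sum_nonneg fun τ _ =>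
    mul_nonneg (hγ.nonneg σ τ) (hamming_nonneg σ τ)

lemma KR_le {μ ν : P n → ℝ} {γ : P n → P n → ℝ} (hγ : IsCoupling γ μ ν) {b : ℝ}
    (hb : ∑ σ, ∑ τ, γ σ τ * hamming σ τ ≤ b) : KR μ ν ≤ b := by
  refine le_trans (csInf_le ⟨0, ?_⟩ ⟨γ, hγ, rfl⟩) hb
  rintro c ⟨γ, hγ, rfl⟩
  exact Finset.sum_nonneg fun σ _ => Finset.sum_nonneg fun τ _ =>
    mul_nonneg (hγ.nonneg σ τ) (hamming_nonneg σ τ)

lemma KR_bound {A : Type} [Fintype A] [Nonempty A] (f : A → P n) :
    KR (symmetrize (push f)) (unif n) ≤
      ((∑ a, cyc (f a)) / Fintype.card A + (∑ T : P n, cyc T) / Fintype.card (P n)) / n := by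
  classical
  have hch : ∀ s T : P n, ∃ ρ : P n,
    ((Finset.univ.filter fun a => T (ρ a) ≠ ρ (s a)).card : ℝ) ≤ cyc s + cyc T := match_exists
  choose ρ hρ using hch
  have hA : (Fintype.card A : ℝ) ≠ 0 := by
    exact_mod_cast Fintype.card_ne_zero
  have hP : (Fintype.card (P n) : ℝ) ≠ 0 := by
    exact_mod_cast Fintype.card_ne_zero
  -- the two random permutations
  let X : A × P n × P n → P n := fun x => x.2.2 * f x.1 * x.2.2⁻¹
  let Y : A × P n × P n → P n := fun x =>
    (x.2.2 * (ρ (f x.1) x.2.1)⁻¹) * x.2.1 * (x.2.2 * (ρ (f x.1) x.2.1)⁻¹)⁻¹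
  let Z : ℝ := Fintype.card A * Fintype.card (P n) * Fintype.card (P n)
  have hZ : 0 < Z := by
    have h1 : (0 : ℝ) < Fintype.card A := by exact_mod_cast Fintype.card_pos
    have h2 : (0 : ℝ) < Fintype.card (P n) := by exact_mod_cast Fintype.card_pos
    positivity
  let γ : P n → P n → ℝ := fun σ τ =>
    (∑ x : A × P n × P n, if X x = σ then (if Y x = τ then (1 : ℝ) else 0) else 0) / Z
  have hγ : IsCoupling γ (symmetrize (push f)) (unif n) := by
    refine ⟨?_, ?_, ?_⟩
    · intro σ τ
      apply div_nonneg _ hZ.le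
      apply Finset.sum_nonneg
      intro x _
      split_ifs <;> norm_num
    · intro σ
      show ∑ τ, (∑ x : A × P n × P n,
        if X x = σ then (if Y x = τ then (1 : ℝ) else 0) else 0) / Z = _
      rw [← Finset.sum_div, Finset.sum_comm]
      have h1 : ∀ x : A × P n × P n, ∑ τ : P n,
          (if X x = σ then (if Y x = τ then (1 : ℝ) else 0) else 0) =
          if X x = σ then 1 else 0 := by
        intro x
        by_cases h : X x = σ
        · simp only [h, if_true]
          rw [Finset.sum_ite_eq]; simp
        · simp only [h, if_false, Finset.sum_const_zero]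
      rw [Finset.sum_congr rfl fun x _ => h1 x]
      have h2 : ∑ x : A × P n × P n, (if X x = σ then (1 : ℝ) else 0) =
          ∑ π : P n, ∑ T : P n, ∑ a : A, if f a = π⁻¹ * σ * π then (1 : ℝ) else 0 := by
        rw [Fintype.sum_prod_type, Finset.sum_comm]
        rw [Fintype.sum_prod_type, Finset.sum_comm]
        apply Finset.sum_congr rfl
        intro π _
        apply Finset.sum_congr rfl
        intro T _
        apply Finset.sum_congr rfl
        intro a _
        have : (X (a, T, π) = σ) ↔ f a = π⁻¹ * σ * π := by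
          show π * f a * π⁻¹ = σ ↔ _
          constructor
          · rintro rfl; group
          · intro h; rw [h]; group
        simp only [this]
      have h3 : ∀ π : P n, ∑ _T : P n, ∑ a : A, (if f a = π⁻¹ * σ * π then (1 : ℝ) else 0) =
          Fintype.card (P n) * ((Finset.univ.filter fun a => f a = π⁻¹ * σ * π).card : ℝ) := by
        intro π
        rw [Finset.sum_const, Finset.card_univ, nsmul_eq_mul, Finset.sum_boole]
      have h4 : symmetrize (push f) σ = (∑ π : P n,
          ((Finset.univ.filter fun a => f a = π⁻¹ * σ * π).card : ℝ)) / Fintype.card A /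
            Fintype.card (P n) := by
        unfold symmetrize push
        rw [← Finset.sum_div]
      rw [h2, Finset.sum_congr rfl fun π _ => h3 π, ← Finset.mul_sum, h4]
      show _ / ((Fintype.card A : ℝ) * Fintype.card (P n) * Fintype.card (P n)) = _
      generalize ∑ π : P n, ((Finset.univ.filter fun a => f a = π⁻¹ * σ * π).card : ℝ) = Q
      generalize (Fintype.card A : ℝ) = cA at hA ⊢
      generalize (Fintype.card (P n) : ℝ) = cP at hP ⊢
      field_simp
    · intro τ
      show ∑ σ, (∑ x : A × P n × P n,
        if X x = σ then (if Y x = τ then (1 : ℝ) else 0) else 0) / Z = _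
      rw [← Finset.sum_div, Finset.sum_comm]
      have h1 : ∀ x : A × P n × P n, ∑ σ : P n,
          (if X x = σ then (if Y x = τ then (1 : ℝ) else 0) else 0) =
          if Y x = τ then 1 else 0 := by
        intro x
        rw [Finset.sum_ite_eq]; simp
      rw [Finset.sum_congr rfl fun x _ => h1 x]
      have h2 : ∑ x : A × P n × P n, (if Y x = τ then (1 : ℝ) else 0) =
          ∑ a : A, ∑ π : P n, ∑ T : P n, if T = π⁻¹ * τ * π then (1 : ℝ) else 0 := by
        rw [Fintype.sum_prod_type]
        apply Finset.sum_congr rfl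
        intro a _
        rw [Fintype.sum_prod_type]
        have h3 : ∀ T : P n, ∑ π : P n, (if Y (a, T, π) = τ then (1 : ℝ) else 0) =
            ∑ π : P n, if T = π⁻¹ * τ * π then (1 : ℝ) else 0 := by
          intro T
          apply Fintype.sum_equiv (Equiv.mulRight (ρ (f a) T)⁻¹)
          intro π
          have : (Y (a, T, π) = τ) ↔
              T = (π * (ρ (f a) T)⁻¹)⁻¹ * τ * (π * (ρ (f a) T)⁻¹) := by
            show (π * (ρ (f a) T)⁻¹) * T * (π * (ρ (f a) T)⁻¹)⁻¹ = τ ↔ _
            generalize ρ (f a) T = R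
            constructor
            · rintro rfl; group
            · intro h
              conv_lhs => rw [h]
              group
          exact if_congr this rfl rfl
        rw [Finset.sum_congr rfl fun T _ => h3 T, Finset.sum_comm]
      rw [h2]
      have h4 : ∀ π : P n, ∑ T : P n, (if T = π⁻¹ * τ * π then (1 : ℝ) else 0) = 1 := by
        intro π
        rw [Finset.sum_ite_eq']; simp
      simp only [h4, Finset.sum_const, Finset.card_univ, nsmul_eq_mul, mul_one]
      show _ / ((Fintype.card A : ℝ) * Fintype.card (P n) * Fintype.card (P n)) =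
        1 / (Fintype.card (P n) : ℝ)
      generalize (Fintype.card A : ℝ) = cA at hA ⊢
      generalize (Fintype.card (P n) : ℝ) = cP at hP ⊢
      field_simp
  refine KR_le hγ ?_
  -- the cost
  have hcost : ∑ σ, ∑ τ, γ σ τ * hamming σ τ = (∑ x : A × P n × P n, hamming (X x) (Y x)) / Z := by
    have h1 : ∀ σ τ, γ σ τ * hamming σ τ = (∑ x : A × P n × P n,
        if X x = σ then (if Y x = τ then hamming (X x) (Y x) else 0) else 0) / Z := by
      intro σ τ
      show (∑ x : A × P n × P n, if X x = σ then (if Y x = τ then (1 : ℝ) else 0) else 0) / Z *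
        hamming σ τ = _
      rw [div_mul_eq_mul_div, Finset.sum_mul]
      congr 1
      apply Finset.sum_congr rfl
      intro x _
      by_cases h : X x = σ
      · by_cases h' : Y x = τ
        · simp [h, h']
        · simp [h']
      · simp [h]
    simp only [h1]
    simp only [← Finset.sum_div]
    congr 1
    have h2 : ∀ σ : P n, ∑ τ : P n, ∑ x : A × P n × P n,
        (if X x = σ then (if Y x = τ then hamming (X x) (Y x) else 0) else 0) =
        ∑ x : A × P n × P n, if X x = σ then hamming (X x) (Y x) else 0 := by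
      intro σ
      rw [Finset.sum_comm]
      apply Finset.sum_congr rfl
      intro x _
      by_cases h : X x = σ
      · simp only [h, if_true]
        rw [Finset.sum_ite_eq]; simp
      · simp only [h, if_false, Finset.sum_const_zero]
    simp only [h2]
    rw [Finset.sum_comm]
    apply Finset.sum_congr rfl
    intro x _
    rw [Finset.sum_ite_eq]; simp
  rw [hcost]
  have hham : ∀ x : A × P n × P n, hamming (X x) (Y x) ≤ (cyc (f x.1) + cyc x.2.1) / n := by
    rintro ⟨a, T, π⟩
    unfold hamming
    gcongr
    refine le_trans ?_ (hρ (f a) T)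
    norm_cast
    apply Finset.card_le_card_of_injOn (fun i => π⁻¹ i)
    · intro i hi
      have hi' := (Finset.mem_filter.1 hi).2
      rw [Finset.mem_coe, Finset.mem_filter]
      refine ⟨Finset.mem_univ _, ?_⟩
      intro h
      apply hi'
      show (π * f a * π⁻¹) i = ((π * (ρ (f a) T)⁻¹) * T * (π * (ρ (f a) T)⁻¹)⁻¹) i
      simp only [Equiv.Perm.mul_apply, mul_inv_rev, inv_inv]
      rw [h]; simp
    · intro i _ j _ hij
      exact π⁻¹.injective hij
  have hsum : ∑ x : A × P n × P n, hamming (X x) (Y x) ≤
      ∑ x : A × P n × P n, (cyc (f x.1) + cyc x.2.1) / n := Finset.sum_le_sum fun x _ => hham x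
  have htot : ∑ x : A × P n × P n, (cyc (f x.1) + cyc x.2.1) / (n : ℝ) =
      ((∑ a, cyc (f a)) * Fintype.card (P n) * Fintype.card (P n) +
        Fintype.card A * (∑ T : P n, cyc T) * Fintype.card (P n)) / n := by
    rw [← Finset.sum_div]
    congr 1
    rw [Fintype.sum_prod_type]
    simp only [Fintype.sum_prod_type, Finset.sum_const, Finset.card_univ, nsmul_eq_mul,
      Finset.sum_add_distrib, ← Finset.mul_sum, Fintype.card_prod, Nat.cast_mul]
    ring
  rw [div_le_iff₀ hZ]
  refine hsum.trans ?_
  rw [htot]
  apply le_of_eq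
  show _ = _ * ((Fintype.card A : ℝ) * Fintype.card (P n) * Fintype.card (P n))
  generalize (Fintype.card A : ℝ) = cA at hA ⊢
  generalize (Fintype.card (P n) : ℝ) = cP at hP ⊢
  generalize (∑ a, cyc (f a)) = q1
  generalize (∑ T : P n, cyc T) = q2
  field_simp

end coupling

section final

lemma avg_unif {n K L₀ : ℕ} (hK : 0 < K) (hL : 1 ≤ L₀) (hn : 2 * (K * L₀) < n) :
    ∑ T : P n, cyc T ≤ Fintype.card (P n) *
      ((n : ℝ) / K + K * (n * bd (K * L₀) / ((n : ℝ) - 2 * (K * L₀)))) := by
  let w : CWord n 1 := ⟨1, [((0, true), 1)]⟩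
  have hw : w.eps ≠ 1 := by
    have : w.eps = FreeGroup.of 0 := by
      show epsList [(((0 : Fin 1), true), (1 : P n))] = _
      simp [epsList, FreeGroup.of]
    rw [this]
    exact FreeGroup.of_ne_one 0
  have h1 := avg_cyc w hw hK (show w.length ≤ L₀ from hL) hn
  have h2 : ∀ g : Fin 1 → P n, w.eval g = g 0 := by
    intro g
    show 1 * evalList [((0, true), (1 : P n))] g = g 0
    simp [evalList, sp]
  have h3 : ∑ g : Fin 1 → P n, cyc (w.eval g) = ∑ T : P n, cyc T := by
    apply Fintype.sum_equiv (Equiv.funUnique (Fin 1) (P n))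
    intro g
    rw [h2]; rfl
  have h4 : Fintype.card (Fin 1 → P n) = Fintype.card (P n) :=
    Fintype.card_congr (Equiv.funUnique (Fin 1) (P n))
  rw [h3, h4] at h1
  exact h1

lemma KR_word {n r : ℕ} (w : CWord n r) (hw : w.eps ≠ 1) {K L₀ : ℕ} (hK : 0 < K)
    (hL1 : 1 ≤ L₀) (hL : w.length ≤ L₀) (hn : 2 * (K * L₀) < n) :
    KR (symmetrize (push w.eval)) (unif n) ≤
      2 * (1 / K + K * bd (K * L₀) / ((n : ℝ) - 2 * (K * L₀))) := by
  have h0 := KR_bound (w.eval)
  have h1 := avg_cyc w hw hK hL hn
  have h2 := avg_unif hK hL1 hn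
  have hA : (0 : ℝ) < Fintype.card (Fin r → P n) := by exact_mod_cast Fintype.card_pos
  have hP : (0 : ℝ) < Fintype.card (P n) := by exact_mod_cast Fintype.card_pos
  have hn0 : (0 : ℝ) < n := by
    have : 0 < n := by omega
    exact_mod_cast this
  refine h0.trans ?_
  rw [div_le_iff₀ hn0]
  have e1 : (∑ a, cyc (w.eval a)) / Fintype.card (Fin r → P n) ≤
      (n : ℝ) / K + K * (n * bd (K * L₀) / ((n : ℝ) - 2 * (K * L₀))) := by
    rw [div_le_iff₀ hA, mul_comm]; exact h1
  have e2 : (∑ T : P n, cyc T) / Fintype.card (P n) ≤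
      (n : ℝ) / K + K * (n * bd (K * L₀) / ((n : ℝ) - 2 * (K * L₀))) := by
    rw [div_le_iff₀ hP, mul_comm]; exact h2
  calc _ ≤ ((n : ℝ) / K + K * (n * bd (K * L₀) / ((n : ℝ) - 2 * (K * L₀)))) +
        ((n : ℝ) / K + K * (n * bd (K * L₀) / ((n : ℝ) - 2 * (K * L₀)))) := add_le_add e1 e2
    _ = _ := by ring

/-- For every sequence of non-singular words with constants of bounded length, the symmetrised
word measures are asymptotically equidistributed. -/
theorem result (r : ℕ) (w : ∀ n : ℕ, CWord n r) (L₀ : ℕ) (hlen : ∀ n, (w n).length ≤ L₀)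
    (hns : ∀ n, (w n).eps ≠ 1) :
    Filter.Tendsto (fun n => KR (symmetrize (push (w n).eval)) (unif n)) Filter.atTop
      (nhds 0) := by
  rw [Metric.tendsto_atTop]
  intro ε hε
  obtain ⟨K, hK⟩ := exists_nat_gt (4 / ε)
  have hK0 : 0 < K := by
    have : (0 : ℝ) < K := lt_trans (by positivity) hK
    exact_mod_cast this
  let L₁ := max L₀ 1
  obtain ⟨M, hM⟩ := exists_nat_gt (4 * (K * bd (K * L₁)) / ε)
  refine ⟨2 * (K * L₁) + M + 1, fun n hn => ?_⟩
  rw [Real.dist_eq, sub_zero, abs_of_nonneg (KR_nonneg _ _)]
  have h1 := KR_word (w n) (hns n) hK0 (le_max_right L₀ 1) ((hlen n).trans (le_max_left L₀ 1))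
    (show 2 * (K * L₁) < n by omega)
  refine lt_of_le_of_lt h1 ?_
  have hKr : (0 : ℝ) < K := by exact_mod_cast hK0
  have h2 : 1 / (K : ℝ) < ε / 4 := by
    rw [div_lt_iff₀ hKr]
    rw [div_lt_iff₀ hε] at hK
    linarith
  have hnM : (M : ℝ) + 1 ≤ (n : ℝ) - 2 * (K * L₁) := by
    have : ((2 * (K * L₁) + M + 1 : ℕ) : ℝ) ≤ n := by exact_mod_cast hn
    push_cast at this; linarith
  have hpos : (0 : ℝ) < (n : ℝ) - 2 * (K * L₁) := by
    have : (0 : ℝ) ≤ M := Nat.cast_nonneg M
    linarith
  have h3 : K * (bd (K * L₁) : ℝ) / ((n : ℝ) - 2 * (K * L₁)) < ε / 4 := by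
    rw [div_lt_iff₀ hpos]
    rw [div_lt_iff₀ hε] at hM
    nlinarith
  have hL₁ : ((max L₀ 1 : ℕ) : ℝ) = (L₁ : ℝ) := rfl
  rw [← hL₁] at h3
  linarith

end final

end Pool.Agent.Results.MP_492aa6_al.Equidist
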